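import Pool.Agent.H86.RG.Targets2

/-!
# Partial regularity of stationary harmonic maps (MP_2697e3_an), part E: row E
-/

set_option autoImplicit false

namespace Pool.Agent.H1.RG6

open MeasureTheory Metric Set Filter Topology Pool.Agent.H87.SN Pool.Agent.H86.RG
open scoped ContDiff RealInnerProductSpace ENNReal

noncomputable section

variable {n m : ℕ}

/-- elementary bilinear maps -/
def eb (a b c : Fin m) : E m →L[ℝ] E m →L[ℝ] E m :=
  (EuclideanSpace.proj b : E m →L[ℝ] ℝ).smulRight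
    ((EuclideanSpace.proj c : E m →L[ℝ] ℝ).smulRight (bv a))

/-- evaluation of bilinear maps -/
def evl (v w : E m) (k : Fin m) : (E m →L[ℝ] E m →L[ℝ] E m) →ₗ[ℝ] ℝ where
  toFun B := B v w k
  map_add' _ _ := rfl
  map_smul' _ _ := rfl

theorem evl_eb (a b c : Fin m) (v w : E m) (k : Fin m) :
    evl v w k (eb a b c) = if k = a then v b * w c else 0 := by
  show v b * (w c * (bv a : E m) k) = _
  simp only [bv, PiLp.single_apply]
  split_ifs <;> simp

/-- the bilinear maps with given coefficients -/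
def AA (g : Fin m → Fin m → Fin m → E m → ℝ) (q : E m) : E m →L[ℝ] E m →L[ℝ] E m :=
  ∑ a, ∑ b, ∑ c, g a b c q • eb a b c

theorem AA_apply (g : Fin m → Fin m → Fin m → E m → ℝ) (q v w : E m) (k : Fin m) :
    AA g q v w k = ∑ b, ∑ c, g k b c q * (v b * w c) := by
  have h : AA g q v w k = evl v w k (AA g q) := rfl
  rw [h]
  unfold AA
  simp only [map_sum, map_smul, evl_eb, smul_eq_mul]
  rw [Finset.sum_eq_single k]
  · simp only [if_true]
  · intro a _ ha
    refine Finset.sum_eq_zero fun b _ => Finset.sum_eq_zero fun c _ => ?_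
    rw [if_neg (Ne.symm ha), mul_zero]
  · intro h
    exact absurd (Finset.mem_univ k) h

theorem eb_cd (a b c : Fin m) : ContDiff ℝ ∞ (fun t : ℝ => t • eb a b c) := by
  have h : ContDiff ℝ ∞ (fun t : ℝ => (ContinuousLinearMap.toSpanSingleton ℝ (eb a b c)) t) :=
    ContinuousLinearMap.contDiff (ContinuousLinearMap.toSpanSingleton ℝ (eb a b c))
  exact h

theorem AA_cd {g : Fin m → Fin m → Fin m → E m → ℝ} (hg : ∀ a b c, ContDiff ℝ ∞ (g a b c)) :
    ContDiff ℝ ∞ (AA g) := by
  unfold AA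
  exact ContDiff.sum fun a _ => ContDiff.sum fun b _ => ContDiff.sum fun c _ =>
    (eb_cd a b c).comp (hg a b c)

/-- products with cutoff functions -/
theorem cut_cd {χ F : E m → ℝ} {V : Set (E m)} (hV : IsOpen V) (hχ : ContDiff ℝ ∞ χ)
    (hs : tsupport χ ⊆ V) (hF : ContDiffOn ℝ ∞ F V) : ContDiff ℝ ∞ (fun q => χ q * F q) := by
  refine contDiff_iff_contDiffAt.2 fun q => ?_
  by_cases hq : q ∈ V
  · exact hχ.contDiffAt.mul (hF.contDiffAt (hV.mem_nhds hq))
  · have h1 : q ∉ tsupport χ := fun h => hq (hs h)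
    have h0 : (fun q => χ q * F q) =ᶠ[𝓝 q] fun _ => 0 := by
      filter_upwards [(isClosed_tsupport χ).isOpen_compl.mem_nhds h1] with y hy
      rw [image_eq_zero_of_notMem_tsupport hy, zero_mul]
    exact contDiffAt_const.congr_of_eventuallyEq h0

/-- products with test functions -/
theorem int_smul {F : Type} [NormedAddCommGroup F] [NormedSpace ℝ F] {U : Set (E n)}
    (hU : IsOpen U) {ψ : E n → ℝ} (hψ : Continuous ψ) (hc : IsCompact (tsupport ψ))
    (hs : tsupport ψ ⊆ U) {h : E n → F} (hh : ContinuousOn h U) :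
    Integrable (fun x => ψ x • h x) := by
  have h1 : Continuous (fun x => ψ x • h x) := by
    refine continuous_iff_continuousAt.2 fun x => ?_
    by_cases hx : x ∈ U
    · exact hψ.continuousAt.smul (hh.continuousAt (hU.mem_nhds hx))
    · have h2 : x ∉ tsupport ψ := fun h => hx (hs h)
      have h0 : (fun x => ψ x • h x) =ᶠ[𝓝 x] fun _ => 0 := by
        filter_upwards [(isClosed_tsupport ψ).isOpen_compl.mem_nhds h2] with y hy
        rw [image_eq_zero_of_notMem_tsupport hy, zero_smul]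
      exact continuousAt_const.congr h0.symm
  refine h1.integrable_of_hasCompactSupport ?_
  exact HasCompactSupport.smul_right (f := ψ) (f' := h) hc

theorem pf_E (hD1 : T_D1) (hHLO : Pool.Agent.H70.RG.T_HLO) (hHMO : Pool.Agent.H70.RG.T_HMO)
    (hSYS : Pool.Agent.H70.RG.T_SYS) : T_E := by
  intro n m N u D f x₀ R K C hn hR hN hSol huN hLoc hf hdec
  obtain ⟨u', r, hr, hrR, hu', hHH, hD⟩ := hD1 n m u D f x₀ R K C hn hR hSol hf hdec
  have hsub : ball x₀ r ⊆ ball x₀ (2 * R) := ball_subset_ball (by linarith)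
  have hcont : ContinuousOn u' (ball x₀ r) := (hHMO n (E m) 1 u' _ isOpen_ball).2 hHH
  have hx₀ : x₀ ∈ ball x₀ r := mem_ball_self hr
  have hcat : ContinuousAt u' x₀ := hcont.continuousAt (isOpen_ball.mem_nhds hx₀)
  have hder : ∀ i : Fin n, ContinuousOn (fun x => fderiv ℝ u' x (bv i)) (ball x₀ r) :=
    fun i => (hHMO n (E m) 0 _ _ isOpen_ball).2 (hHH.2 i)
  -- the value at the centre
  have hp : u' x₀ ∈ N := by
    by_contra hp
    have h1 : u' ⁻¹' Nᶜ ∈ 𝓝 x₀ := hcat (hN.isOpen_compl.mem_nhds hp)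
    obtain ⟨δ, hδ, hδ'⟩ := Metric.mem_nhds_iff.1 h1
    have h2 : ∀ᵐ x ∂(volume.restrict (ball x₀ (min δ r))), False := by
      have h3 := ae_restrict_of_ae_restrict_of_subset
        (ball_subset_ball (min_le_right δ r) : ball x₀ (min δ r) ⊆ ball x₀ r) hu'
      have h4 := ae_restrict_of_ae_restrict_of_subset
        ((ball_subset_ball (min_le_right δ r)).trans hsub : ball x₀ (min δ r) ⊆ _) huN
      filter_upwards [h3, h4, ae_restrict_mem measurableSet_ball] with x h5 h6 h7
      have h8 : u' x ∉ N := hδ' (ball_subset_ball (min_le_left δ r) h7)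
      rw [h5] at h8
      exact h8 h6
    rw [eventually_false_iff_eq_bot, ae_eq_bot, Measure.restrict_eq_zero] at h2
    exact (measure_ball_pos volume x₀ (lt_min hδ hr)).ne' h2
  obtain ⟨V, F, hV, hpV, hF, hae⟩ := hLoc _ hp
  obtain ⟨ε, hε, hεV⟩ := Metric.isOpen_iff.1 hV _ hpV
  set e : ℝ := ε / 4 with he
  have he0 : 0 < e := by positivity
  let χ : ContDiffBump (u' x₀) := ⟨e, 2 * e, he0, by linarith⟩
  have hχs : tsupport χ ⊆ V := by
    rw [χ.tsupport_eq]
    refine (closedBall_subset_ball ?_).trans hεV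
    show 2 * e < ε
    linarith
  have hA : ContDiff ℝ ∞ (AA fun a b c q => χ q * F a b c q) :=
    AA_cd fun a b c => cut_cd hV χ.contDiff hχs (hF a b c)
  -- the small ball
  have h1 : u' ⁻¹' ball (u' x₀) e ∈ 𝓝 x₀ := hcat (ball_mem_nhds _ he0)
  obtain ⟨δ, hδ, hδ'⟩ := Metric.mem_nhds_iff.1 h1
  set r' : ℝ := min δ r with hr'
  have hr'0 : 0 < r' := lt_min hδ hr
  have hB : ball x₀ r' ⊆ ball x₀ r := ball_subset_ball (min_le_right δ r)
  have hHH' : Pool.Agent.H70.RG.HH 1 u' (ball x₀ r') :=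
    (hHLO n (E m) 1).1 u' _ _ isOpen_ball hB hHH
  refine ⟨u', r', hr'0, (min_le_right δ r).trans hrR,
    ae_restrict_of_ae_restrict_of_subset hB hu', ?_⟩
  refine hSYS n m (AA fun a b c q => χ q * F a b c q) (ball x₀ r') u' hA isOpen_ball hHH' ?_
  rintro ψ ⟨hψ, hψc, hψs⟩
  have hae2 : ∀ᵐ x ∂(volume : Measure (E n)), x ∈ ball x₀ r' →
      (∀ a i, D a x i = (fderiv ℝ u' x (bv i)) a) ∧
      ∀ a, f x a = ∑ i : Fin n, (AA (fun a b c q => χ q * F a b c q) (u' x)
        (fderiv ℝ u' x (bv i)) (fderiv ℝ u' x (bv i))) a := by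
    rw [← ae_restrict_iff' measurableSet_ball]
    have h3 := ae_restrict_of_ae_restrict_of_subset hB hu'
    have h4 := ae_restrict_of_ae_restrict_of_subset hB hD
    have h5 := ae_restrict_of_ae_restrict_of_subset (hB.trans hsub) hae
    filter_upwards [h3, h4, h5, ae_restrict_mem measurableSet_ball] with x h6 h7 h8 h9
    refine ⟨h7, fun a => ?_⟩
    have h10 : u' x ∈ ball (u' x₀) e := hδ' (ball_subset_ball (min_le_left δ r) h9)
    have h11 : χ (u' x) = 1 := χ.one_of_mem_closedBall (ball_subset_closedBall h10)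
    have h12 : u x ∈ V := by
      rw [← h6]
      refine hεV (ball_subset_ball ?_ h10)
      linarith
    rw [h8 h12 a]
    refine Finset.sum_congr rfl fun i _ => ?_
    rw [AA_apply]
    refine Finset.sum_congr rfl fun b _ => Finset.sum_congr rfl fun c _ => ?_
    rw [h11, ← h6, h7, h7]
    ring
  have hfd : ∀ x, x ∉ ball x₀ r' → ψ x = 0 ∧ fderiv ℝ ψ x = 0 := by
    intro x hx
    have h3 : x ∉ tsupport ψ := fun h => hx (hψs h)
    exact ⟨image_eq_zero_of_notMem_tsupport h3,
      image_eq_zero_of_notMem_tsupport fun h => h3 (tsupport_fderiv_subset ℝ h)⟩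
  have hin1 : ∀ i : Fin n, Integrable (fun x => fderiv ℝ ψ x (bv i) • fderiv ℝ u' x (bv i)) := by
    intro i
    have hts : tsupport (fun x => fderiv ℝ ψ x (bv i)) ⊆ tsupport ψ :=
      tsupport_fderiv_apply_subset ℝ (bv i)
    refine int_smul (U := ball x₀ r') isOpen_ball ?_ (hψc.of_isClosed_subset
      (isClosed_tsupport _) hts) (hts.trans hψs) ((hder i).mono hB)
    exact (hψ.continuous_fderiv (by simp)).clm_apply continuous_const
  have hcA : ∀ i : Fin n, ContinuousOn (fun x => AA (fun a b c q => χ q * F a b c q) (u' x)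
      (fderiv ℝ u' x (bv i)) (fderiv ℝ u' x (bv i))) (ball x₀ r') := by
    intro i
    exact ((hA.continuous.comp_continuousOn (hcont.mono hB)).clm_apply
      ((hder i).mono hB)).clm_apply ((hder i).mono hB)
  have hin2 : Integrable (fun x => ψ x • ∑ i : Fin n, AA (fun a b c q => χ q * F a b c q) (u' x)
      (fderiv ℝ u' x (bv i)) (fderiv ℝ u' x (bv i))) :=
    int_smul (U := ball x₀ r') isOpen_ball hψ.continuous hψc hψs
      (continuousOn_finsetSum _ fun i _ => hcA i)
  ext a
  have e1 := (EuclideanSpace.proj a : E m →L[ℝ] ℝ).integral_comp_comm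
    (integrable_finsetSum (Finset.univ : Finset (Fin n)) fun i _ => hin1 i)
  have e2 := (EuclideanSpace.proj a : E m →L[ℝ] ℝ).integral_comp_comm hin2
  show (EuclideanSpace.proj a : E m →L[ℝ] ℝ) _ = (EuclideanSpace.proj a : E m →L[ℝ] ℝ) _
  rw [← e1, ← e2]
  have hev : ∀ x : E m, (EuclideanSpace.proj a : E m →L[ℝ] ℝ) x = x a := fun _ => rfl
  have h3 := hSol.eq a ψ ⟨hψ, hψc, hψs.trans (hB.trans hsub)⟩
  calc ∫ x, (EuclideanSpace.proj a : E m →L[ℝ] ℝ)
        (∑ i : Fin n, fderiv ℝ ψ x (bv i) • fderiv ℝ u' x (bv i)) =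
      ∫ x, ∑ i : Fin n, dd i ψ x * D a x i := by
        refine integral_congr_ae ?_
        filter_upwards [hae2] with x hx
        rw [map_sum]
        refine Finset.sum_congr rfl fun i _ => ?_
        rw [map_smul, hev, smul_eq_mul]
        unfold dd
        by_cases hxB : x ∈ ball x₀ r'
        · rw [(hx hxB).1]
        · rw [(hfd x hxB).2]
          simp
    _ = ∫ x, ψ x * f x a := h3
    _ = _ := by
        refine integral_congr_ae ?_
        filter_upwards [hae2] with x hx
        rw [map_smul, map_sum, smul_eq_mul]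
        by_cases hxB : x ∈ ball x₀ r'
        · rw [(hx hxB).2 a]
          simp only [hev]
        · rw [(hfd x hxB).1, zero_mul, zero_mul]

end

end Pool.Agent.H1.RG6
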